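import Pool.Agent.H70.RC.Targets

/-!
# RAZ: the number of bad pairs
-/

set_option autoImplicit false

namespace Pool.Agent.H49.RC

open Finset Pool.Agent.H6.NB Pool.Agent.H70.OQ Pool.Agent.H70.EH Pool.Agent.H70.EI
open Pool.Agent.H78.XQ Pool.Agent.H70.RC

/-- functions with prescribed values on a finite set -/
lemma card_fix {I : Type} [Fintype I] [DecidableEq I] {A : I → Type} [∀ s, Fintype (A s)]
    [∀ s, DecidableEq (A s)] (M : ℕ) (hM : ∀ s, M ≤ Fintype.card (A s)) (S : Finset I)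
    (a₀ : ∀ s, A s) :
    (univ.filter fun a : ∀ s, A s => ∀ s ∈ S, a s = a₀ s).card * M ^ S.card ≤
      Fintype.card (∀ s, A s) := by
  classical
  have h1 : M ^ S.card ≤ Fintype.card (∀ s : S, A s) := by
    rw [Fintype.card_pi]
    calc M ^ S.card = ∏ s : S, M := by rw [Finset.prod_const, Finset.card_univ, Fintype.card_coe]
      _ ≤ _ := Finset.prod_le_prod' fun s _ => hM s
  have h2 : Fintype.card ({a : ∀ s, A s // ∀ s ∈ S, a s = a₀ s} × (∀ s : S, A s)) ≤
      Fintype.card (∀ s, A s) := by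
    refine Fintype.card_le_of_injective
      (fun p s => if h : s ∈ S then p.2 ⟨s, h⟩ else p.1.1 s) ?_
    rintro ⟨⟨a, ha⟩, c⟩ ⟨⟨a', ha'⟩, c'⟩ h
    have e1 : ∀ s : S, c s = c' s := by
      intro s
      have := congrFun h s.1
      simpa using this
    have e2 : ∀ s, a s = a' s := by
      intro s
      by_cases hs : s ∈ S
      · rw [ha s hs, ha' s hs]
      · have := congrFun h s
        simpa [hs] using this
    rw [Prod.mk.injEq, Subtype.mk.injEq]
    exact ⟨funext e2, funext e1⟩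
  rw [Fintype.card_prod, Fintype.card_subtype] at h2
  exact (Nat.mul_le_mul_left _ h1).trans h2

/-- the number of addresses which hit every string of a list -/
lemma card_hit {I W : Type} [Fintype I] [DecidableEq I] {A : I → Type} [∀ s, Fintype (A s)]
    [∀ s, DecidableEq (A s)] (M : ℕ) (hM : ∀ s, M ≤ Fintype.card (A s)) (ps : (Σ s, A s) → W)
    (hinj : Function.Injective ps) (L : List W) (hL : L.Nodup) :
    (Nat.card {a : ∀ s, A s // ∀ w ∈ L, ∃ s, w = ps ⟨s, a s⟩}) * M ^ L.length ≤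
      Nat.card (∀ s, A s) := by
  classical
  rw [Nat.card_eq_fintype_card, Nat.card_eq_fintype_card, Fintype.card_subtype]
  by_cases hne : (univ.filter fun a : ∀ s, A s => ∀ w ∈ L, ∃ s, w = ps ⟨s, a s⟩).Nonempty
  · obtain ⟨a₀, ha₀⟩ := hne
    rw [Finset.mem_filter] at ha₀
    have h1 : ∀ w : {w // w ∈ L}, ∃ s, w.1 = ps ⟨s, a₀ s⟩ := fun w => ha₀.2 w.1 w.2
    choose σ hσ using h1
    have hσi : Function.Injective σ := by
      intro w w' h
      apply Subtype.ext
      rw [hσ w, hσ w', h]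
    obtain ⟨S, hS⟩ : ∃ S : Finset I, S = L.toFinset.attach.image
        (fun w => σ ⟨w.1, List.mem_toFinset.1 w.2⟩) := ⟨_, rfl⟩
    have hc : S.card = L.length := by
      rw [hS, Finset.card_image_of_injective, Finset.card_attach, List.toFinset_card_of_nodup hL]
      intro w w' h
      have := hσi h
      rw [Subtype.mk.injEq] at this
      exact Subtype.ext this
    rw [← hc]
    refine le_trans (Nat.mul_le_mul_right _ (Finset.card_le_card ?_)) (card_fix M hM S a₀)
    intro a ha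
    rw [Finset.mem_filter] at ha ⊢
    refine ⟨Finset.mem_univ _, fun s hs => ?_⟩
    rw [hS, Finset.mem_image] at hs
    obtain ⟨w, _, rfl⟩ := hs
    have hw := List.mem_toFinset.1 w.2
    obtain ⟨s', hs'⟩ := ha.2 w.1 hw
    have h3 := hinj (hs'.symm.trans (hσ ⟨w.1, hw⟩))
    rw [Sigma.mk.injEq] at h3
    obtain ⟨h4, h5⟩ := h3
    subst h4
    exact eq_of_heq h5
  · rw [Finset.not_nonempty_iff_eq_empty] at hne
    rw [hne, Finset.card_empty, zero_mul]
    exact Nat.zero_le _

theorem pf_RAZ (hENC : T_ENC) (hCNT : Pool.Agent.H70.RC.T_CNT) : T_RAZ := by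
  classical
  intro I W _ _ _ A _ _ ps st bv F t r M hA hF hM hM4 hM1
  obtain ⟨R, hR⟩ : ∃ R : (∀ s, A s → Bool) × (Fin r → Fin t → Option (Bool × Bool)) →
      Finset ((∀ s, A s) × (∀ s, A s → Bool)), ∀ x p, p ∈ R x ↔
        ((dec (bv x.1) F (lc x.2) []).length = nc x.2 ∧
        ((dec (bv x.1) F (lc x.2) []).map Prod.fst).Nodup ∧
        (∀ y ∈ dec (bv x.1) F (lc x.2) [], ∃ s, y.1 = ps ⟨s, p.1 s⟩) ∧
        ∀ s z, p.2 s z = match (dec (bv x.1) F (lc x.2) []).lookup (ps ⟨s, z⟩) with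
          | none => x.1 s z
          | some y => y.2) :=
    ⟨fun x => univ.filter fun p => ((dec (bv x.1) F (lc x.2) []).length = nc x.2 ∧
        ((dec (bv x.1) F (lc x.2) []).map Prod.fst).Nodup ∧
        (∀ y ∈ dec (bv x.1) F (lc x.2) [], ∃ s, y.1 = ps ⟨s, p.1 s⟩) ∧
        ∀ s z, p.2 s z = match (dec (bv x.1) F (lc x.2) []).lookup (ps ⟨s, z⟩) with
          | none => x.1 s z
          | some y => y.2), fun x p => by simp⟩
  obtain ⟨Al, hAl⟩ : ∃ Al : Finset (Fin r → Fin t → Option (Bool × Bool)),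
      Al = univ.filter (fun α => r ≤ nc α) := ⟨_, rfl⟩
  have hcardR : ∀ x, ((R x).card : ℝ) ≤ (1 / (M : ℝ)) ^ nc x.2 * Nat.card (∀ s, A s) := by
    intro x
    have hM0 : (0 : ℝ) < M := by exact_mod_cast hM1
    by_cases hne : (R x).Nonempty
    · obtain ⟨p₀, hp₀⟩ := hne
      rw [hR] at hp₀
      obtain ⟨k1, k2, _, _⟩ := hp₀
      have h1 := card_hit M hM ps hA.hinj ((dec (bv x.1) F (lc x.2) []).map Prod.fst) k2
      rw [List.length_map, k1] at h1
      have h2 : (R x).card ≤ Nat.card {a : ∀ s, A s // ∀ w ∈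
          (dec (bv x.1) F (lc x.2) []).map Prod.fst, ∃ s, w = ps ⟨s, a s⟩} := by
        rw [Nat.card_eq_fintype_card, Fintype.card_subtype]
        refine Finset.card_le_card_of_injOn Prod.fst ?_ ?_
        · intro p hp
          rw [Finset.mem_coe, hR] at hp
          rw [Finset.mem_coe, Finset.mem_filter]
          refine ⟨Finset.mem_univ _, fun w hw => ?_⟩
          rw [List.mem_map] at hw
          obtain ⟨y, hy, rfl⟩ := hw
          exact hp.2.2.1 y hy
        · intro p hp p' hp' h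
          rw [Finset.mem_coe, hR] at hp hp'
          refine Prod.ext h ?_
          funext s z
          rw [hp.2.2.2 s z, hp'.2.2.2 s z]
      have h3 : ((R x).card : ℝ) * (M : ℝ) ^ nc x.2 ≤ Nat.card (∀ s, A s) := by
        exact_mod_cast (Nat.mul_le_mul_right _ h2).trans h1
      rw [one_div, inv_pow, ← div_eq_inv_mul, le_div_iff₀ (by positivity)]
      exact h3
    · rw [Finset.not_nonempty_iff_eq_empty] at hne
      rw [hne, Finset.card_empty, Nat.cast_zero]
      positivity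
  have hbad : Nat.card {p : (∀ s, A s) × (∀ s, A s → Bool) // Bad (st p.1) (bv p.2) F r} ≤
      ∑ x ∈ (univ : Finset (∀ s, A s → Bool)) ×ˢ Al, (R x).card := by
    rw [Nat.card_eq_fintype_card, Fintype.card_subtype]
    refine le_trans (Finset.card_le_card ?_) Finset.card_biUnion_le
    intro p hp
    rw [Finset.mem_filter] at hp
    obtain ⟨h', α, k0, k1, k2, k3, k4⟩ := hENC I W A ps st bv F t r hA hF p.1 p.2 hp.2
    rw [Finset.mem_biUnion]
    refine ⟨(h', α), ?_, ?_⟩
    · rw [Finset.mem_product, hAl, Finset.mem_filter]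
      exact ⟨Finset.mem_univ _, Finset.mem_univ _, k0⟩
    · rw [hR]
      exact ⟨k1, k2, k3, k4⟩
  have hC := hCNT r t M hM4 hM1
  rw [← hAl] at hC
  have hsum : (∑ x ∈ (univ : Finset (∀ s, A s → Bool)) ×ˢ Al, ((R x).card : ℝ)) ≤
      (Nat.card (∀ s, A s → Bool) : ℝ) * (Nat.card (∀ s, A s) *
        ∑ α ∈ Al, (1 / (M : ℝ)) ^ nc α) := by
    refine (Finset.sum_le_sum fun x _ => hcardR x).trans (le_of_eq ?_)
    rw [Finset.sum_product]
    simp only
    rw [Finset.sum_const, Finset.card_univ, nsmul_eq_mul,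
      Nat.card_eq_fintype_card (α := ∀ s, A s → Bool), ← Finset.sum_mul]
    ring
  have hb : (Nat.card {p : (∀ s, A s) × (∀ s, A s → Bool) // Bad (st p.1) (bv p.2) F r} : ℝ) ≤
      (Nat.card (∀ s, A s → Bool) : ℝ) * (Nat.card (∀ s, A s) *
        ∑ α ∈ Al, (1 / (M : ℝ)) ^ nc α) := by
    refine le_trans ?_ hsum
    exact_mod_cast hbad
  have hMr : (0 : ℝ) ≤ (M : ℝ) ^ r := by positivity
  calc (Nat.card {p : (∀ s, A s) × (∀ s, A s → Bool) // Bad (st p.1) (bv p.2) F r} : ℝ) * M ^ r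
      ≤ (Nat.card (∀ s, A s → Bool) : ℝ) * (Nat.card (∀ s, A s) *
        ∑ α ∈ Al, (1 / (M : ℝ)) ^ nc α) * M ^ r := mul_le_mul_of_nonneg_right hb hMr
    _ = (Nat.card (∀ s, A s → Bool) : ℝ) * Nat.card (∀ s, A s) *
        ((∑ α ∈ Al, (1 / (M : ℝ)) ^ nc α) * M ^ r) := by ring
    _ ≤ (Nat.card (∀ s, A s → Bool) : ℝ) * Nat.card (∀ s, A s) * (3 * (4 * (r * t)) ^ r) :=
        mul_le_mul_of_nonneg_left hC (by positivity)
    _ = _ := by ring

end Pool.Agent.H49.RC
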